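import Pool.Agent.Helper62.MU.St

set_option autoImplicit false

open MeasureTheory Metric Set Filter Topology Polynomial
open scoped RealInnerProductSpace ContDiff

namespace Pool.Agent.Helper39.MU

open Pool.Agent.Helper62.MU Pool.Agent.Helper62.Mink
open Pool.Agent.Helper62.Mink.Nec (consE)

/-- the reflection -/
private noncomputable def rf {m : ℕ} (w : E (m + 2)) : E (m + 2) := w - (2 * w 0) • po m

private theorem po_zero (m : ℕ) : po m 0 = 1 := by
  simp [po]

private theorem po_succ (m : ℕ) (i : Fin (m + 1)) : po m i.succ = 0 := by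
  simp [po]

private theorem rf_zero {m : ℕ} (w : E (m + 2)) : rf w 0 = -w 0 := by
  unfold rf
  rw [PiLp.sub_apply, PiLp.smul_apply, po_zero, smul_eq_mul]
  ring

private theorem rf_succ {m : ℕ} (w : E (m + 2)) (i : Fin (m + 1)) : rf w i.succ = w i.succ := by
  unfold rf
  rw [PiLp.sub_apply, PiLp.smul_apply, po_succ, smul_eq_mul, mul_zero, sub_zero]

private theorem rf_rf {m : ℕ} (w : E (m + 2)) : rf (rf w) = w := by
  ext i
  refine Fin.cases ?_ (fun j => ?_) i
  · rw [rf_zero, rf_zero, neg_neg]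
  · rw [rf_succ, rf_succ]

private theorem rf_consE {m : ℕ} (x : ℝ) (z : E (m + 1)) : rf (consE x z) = consE (-x) z := by
  ext i
  refine Fin.cases ?_ (fun j => ?_) i
  · rw [rf_zero, Nec.consE_zero, Nec.consE_zero]
  · rw [rf_succ, Nec.consE_succ, Nec.consE_succ]

private theorem rf_add {m : ℕ} (v w : E (m + 2)) : rf (v + w) = rf v + rf w := by
  ext i
  refine Fin.cases ?_ (fun j => ?_) i
  · rw [PiLp.add_apply, rf_zero, rf_zero, rf_zero, PiLp.add_apply]
    ring
  · rw [PiLp.add_apply, rf_succ, rf_succ, rf_succ, PiLp.add_apply]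

private theorem rf_smul {m : ℕ} (c : ℝ) (w : E (m + 2)) : rf (c • w) = c • rf w := by
  ext i
  refine Fin.cases ?_ (fun j => ?_) i
  · rw [PiLp.smul_apply, rf_zero, rf_zero, PiLp.smul_apply, smul_eq_mul, smul_eq_mul]
    ring
  · rw [PiLp.smul_apply, rf_succ, rf_succ, PiLp.smul_apply]

private theorem rf_ne {m : ℕ} {w : E (m + 2)} (hw : w ≠ 0) : rf w ≠ 0 := by
  intro h
  apply hw
  rw [← rf_rf w, h]
  have := rf_smul (0 : ℝ) (0 : E (m + 2))
  rwa [zero_smul, zero_smul] at this

private theorem rf_contDiff {m : ℕ} : ContDiff ℝ ∞ (rf : E (m + 2) → E (m + 2)) := by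
  have h : (rf : E (m + 2) → E (m + 2)) =
      fun w => w - (2 * (EuclideanSpace.proj (𝕜 := ℝ) (0 : Fin (m + 2)) w)) • po m := by
    funext w
    rfl
  rw [h]
  apply ContDiff.sub contDiff_id
  exact (contDiff_const.mul (EuclideanSpace.proj (𝕜 := ℝ) (0 : Fin (m + 2))).contDiff).smul
    contDiff_const

private theorem sy_eq {m : ℕ} (h : E (m + 2) → ℝ) (w : E (m + 2)) : sy h w = h w + h (rf w) := rfl

private theorem cont_sl {m : ℕ} {h : E (m + 2) → ℝ} (hh : Continuous h) (x : ℝ) :
    Continuous (fun z : E (m + 1) => h (consE x z)) := by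
  apply hh.comp
  unfold consE
  apply (PiLp.continuous_toLp 2 _).comp
  exact continuous_const.finCons (PiLp.continuous_ofLp 2 _)

private theorem av_sy {m : ℕ} {h : E (m + 2) → ℝ} (hh : Continuous h) (x : ℝ) :
    av (sy h) x = av h x + av h (-x) := by
  unfold av SI
  rw [← integral_add]
  · apply integral_congr_ae
    filter_upwards with z
    rw [sy_eq, rf_consE]
  · exact sphere_integrable (φ := fun z : E (m + 1) => h (consE x z)) (cont_sl hh x).continuousOn
  · exact sphere_integrable (φ := fun z : E (m + 1) => h (consE (-x) z)) (cont_sl hh (-x)).continuousOn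

private theorem bv_sy {m : ℕ} {h : E (m + 2) → ℝ} (hh : Continuous h) (x : ℝ) :
    bv (sy h) x = bv h x + bv h (-x) := by
  have hz : Continuous (fun z : E (m + 1) => z 0 ^ 2) :=
    ((EuclideanSpace.proj (𝕜 := ℝ) (0 : Fin (m + 1))).continuous).pow 2
  unfold bv SI
  rw [← integral_add]
  · apply integral_congr_ae
    filter_upwards with z
    rw [sy_eq, rf_consE]
    ring
  · exact sphere_integrable (φ := fun z : E (m + 1) => z 0 ^ 2 * h (consE x z))
      (hz.mul (cont_sl hh x)).continuousOn
  · exact sphere_integrable (φ := fun z : E (m + 1) => z 0 ^ 2 * h (consE (-x) z))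
      (hz.mul (cont_sl hh (-x))).continuousOn

private theorem sg_neg (x : ℝ) : sg (-x) = sg x := by
  unfold sg
  rw [neg_sq]

private theorem der_odd {p : ℝ[X]} (hp : ∀ x : ℝ, p.eval (-x) = p.eval x) (x : ℝ) :
    p.derivative.eval (-x) = -p.derivative.eval x := by
  have h1 : p.comp (-X) = p := by
    apply Polynomial.funext
    intro x
    rw [eval_comp, eval_neg, eval_X, hp]
  have h2 := congrArg derivative h1
  rw [derivative_comp, derivative_neg, derivative_X] at h2
  have h3 := congrArg (eval x) h2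
  rw [eval_mul, eval_neg, eval_one, eval_comp, eval_neg, eval_X] at h3
  linarith

private theorem der_even {p : ℝ[X]} (hp : ∀ x : ℝ, p.eval (-x) = -p.eval x) (x : ℝ) :
    p.derivative.eval (-x) = p.derivative.eval x := by
  have h1 : p.comp (-X) = -p := by
    apply Polynomial.funext
    intro x
    rw [eval_comp, eval_neg, eval_X, hp, eval_neg]
  have h2 := congrArg derivative h1
  rw [derivative_comp, derivative_neg, derivative_X, derivative_neg] at h2
  have h3 := congrArg (eval x) h2
  rw [eval_mul, eval_neg, eval_one, eval_comp, eval_neg, eval_X, eval_neg] at h3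
  linarith

private theorem Aa_neg (m : ℕ) {p : ℝ[X]} (hp : ∀ x : ℝ, p.eval (-x) = p.eval x) (x : ℝ) :
    Aa m p (-x) = Aa m p x := by
  unfold Aa
  rw [sg_neg, neg_div, hp, der_odd hp]
  ring

private theorem Bb_neg (m : ℕ) {p : ℝ[X]} (hp : ∀ x : ℝ, p.eval (-x) = p.eval x) (x : ℝ) :
    Bb m p (-x) = Bb m p x := by
  unfold Bb
  rw [sg_neg, neg_div, der_even (der_odd hp)]

theorem hSYM : StSYM := by
  intro m p h hp hh hC hI
  obtain ⟨C, hL⟩ := hh.exists_lipschitz
  have hcont : Continuous h := hL.continuous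
  refine ⟨⟨?_, ?_⟩, ?_, ?_, ?_⟩
  · intro c hc w
    rw [sy_eq, sy_eq, rf_smul, hh.pos_hom c hc, hh.pos_hom c hc]
    ring
  · intro v w
    rw [sy_eq, sy_eq, sy_eq, rf_add]
    linarith [hh.add_le v w, hh.add_le (rf v) (rf w)]
  · show ContDiffOn ℝ ∞ (fun w => h w + h (rf w)) {0}ᶜ
    apply hC.add
    exact hC.comp rf_contDiff.contDiffOn (fun w hw => rf_ne hw)
  · intro x z
    rw [sy_eq, sy_eq, rf_consE, rf_consE, neg_neg]
    ring
  · set F : ℝ → ℝ := fun x => Aa m p x * av h x + Bb m p x * bv h x with hF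
    have h1 : ∫ x : ℝ, F x = ∫ x in Ioi (0 : ℝ), (F x + F (-x)) := by
      rw [← intervalIntegral.integral_Iic_add_Ioi (b := 0) hI.integrableOn hI.integrableOn]
      have h2 := integral_comp_neg_Ioi (0 : ℝ) F
      rw [neg_zero] at h2
      rw [← h2, integral_add hI.integrableOn hI.comp_neg.integrableOn, add_comm]
    rw [h1]
    apply setIntegral_congr_fun measurableSet_Ioi
    intro x _
    simp only [hF]
    rw [av_sy hcont, bv_sy hcont, Aa_neg m hp, Bb_neg m hp]
    ring

end Pool.Agent.Helper39.MU
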