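import Pool.Agent.Helper62.MU.St2

set_option autoImplicit false

open MeasureTheory Metric Set Filter Topology Polynomial
open scoped RealInnerProductSpace ContDiff

namespace Pool.Agent.Helper39.MU

open Pool.Agent.Helper62.MU2 Pool.Agent.Helper62.Mink

private noncomputable def uu (R : ℝ → ℝ) (t : ℝ) : ℝ := R (Real.arccos t) / √(1 - t ^ 2)

private noncomputable def KK (R : ℝ → ℝ) (t : ℝ) : ℝ :=
  (deriv R (Real.arccos t) / t - uu R t) / (1 - t ^ 2)

section

variable {R : ℝ → ℝ} {δ : ℝ}

private theorem d_lo (hR : Rad R δ) {θ : ℝ} (h : θ < δ) : R θ = 0 ∧ deriv R θ = 0 := by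
  refine ⟨hR.z1 θ h.le, ?_⟩
  have h1 : R =ᶠ[𝓝 θ] fun _ => (0 : ℝ) := by
    filter_upwards [Iio_mem_nhds h] with x hx
    exact hR.z1 x (le_of_lt hx)
  rw [h1.deriv_eq, deriv_const]

private theorem d_hi (hR : Rad R δ) {θ : ℝ} (h : Real.pi - δ < θ) : R θ = 0 ∧ deriv R θ = 0 := by
  refine ⟨hR.z2 θ h.le, ?_⟩
  have h1 : R =ᶠ[𝓝 θ] fun _ => (0 : ℝ) := by
    filter_upwards [Ioi_mem_nhds h] with x hx
    exact hR.z2 x (le_of_lt hx)
  rw [h1.deriv_eq, deriv_const]

private theorem d_mid (hR : Rad R δ) {θ : ℝ} (h : |θ - Real.pi / 2| < δ) :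
    R θ = 1 ∧ deriv R θ = 0 := by
  refine ⟨hR.one θ h.le, ?_⟩
  have h1 : R =ᶠ[𝓝 θ] fun _ => (1 : ℝ) := by
    have hc : ContinuousAt (fun x : ℝ => |x - Real.pi / 2|) θ := by fun_prop
    filter_upwards [hc.eventually_lt continuousAt_const h] with x hx
    exact hR.one x (le_of_lt hx)
  rw [h1.deriv_eq, deriv_const]

/-- near the poles everything vanishes -/
private theorem loc_zero (hR : Rad R δ) {t : ℝ}
    (h : Real.arccos t < δ ∨ Real.pi - δ < Real.arccos t) :
    ∀ᶠ s in 𝓝 t, uu R s = 0 ∧ KK R s = 0 := by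
  have hc : ContinuousAt Real.arccos t := Real.continuous_arccos.continuousAt
  have h1 : ∀ᶠ s in 𝓝 t, R (Real.arccos s) = 0 ∧ deriv R (Real.arccos s) = 0 := by
    rcases h with h | h
    · filter_upwards [hc.eventually_lt continuousAt_const h] with s hs
      exact d_lo hR hs
    · filter_upwards [continuousAt_const.eventually_lt hc h] with s hs
      exact d_hi hR hs
  filter_upwards [h1] with s hs
  unfold KK uu
  rw [hs.1, hs.2]
  simp

private theorem inner_of (hR : Rad R δ) {t : ℝ}
    (h : ¬(Real.arccos t < δ ∨ Real.pi - δ < Real.arccos t)) : -1 < t ∧ t < 1 := by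
  rw [not_or, not_lt, not_lt] at h
  have hd := hR.pos.1
  constructor
  · by_contra h1
    rw [Real.arccos_of_le_neg_one (not_lt.1 h1)] at h
    linarith [h.2]
  · by_contra h1
    rw [Real.arccos_of_one_le (not_lt.1 h1)] at h
    linarith [h.1]

private theorem cont_der (hR : Rad R δ) : Continuous (deriv R) :=
  hR.c1.continuous_deriv (le_refl _)

private theorem uu_cont (hR : Rad R δ) : Continuous (uu R) := by
  rw [continuous_iff_continuousAt]
  intro t
  by_cases h : Real.arccos t < δ ∨ Real.pi - δ < Real.arccos t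
  · have h1 := loc_zero hR h
    have h2 : uu R =ᶠ[𝓝 t] fun _ => (0 : ℝ) := h1.mono fun s hs => hs.1
    exact continuousAt_const.congr h2.symm
  · obtain ⟨h1, h2⟩ := inner_of hR h
    have h3 : 0 < 1 - t ^ 2 := by nlinarith
    unfold uu
    apply ContinuousAt.div
    · exact (hR.c1.continuous.comp Real.continuous_arccos).continuousAt
    · exact (Continuous.continuousAt (by fun_prop))
    · exact (Real.sqrt_pos.2 h3).ne'

private theorem KK_cont (hR : Rad R δ) : Continuous (KK R) := by
  rw [continuous_iff_continuousAt]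
  intro t
  by_cases h : Real.arccos t < δ ∨ Real.pi - δ < Real.arccos t
  · have h1 := loc_zero hR h
    have h2 : KK R =ᶠ[𝓝 t] fun _ => (0 : ℝ) := h1.mono fun s hs => hs.2
    exact continuousAt_const.congr h2.symm
  · obtain ⟨h1, h2⟩ := inner_of hR h
    have h3 : 0 < 1 - t ^ 2 := by nlinarith
    by_cases h0 : t = 0
    · have hc : ContinuousAt (fun s => |Real.arccos s - Real.pi / 2|) t :=
        ((Real.continuous_arccos.sub continuous_const).abs).continuousAt
      have h5 : |Real.arccos t - Real.pi / 2| < δ := by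
        rw [h0, Real.arccos_zero, sub_self, abs_zero]
        exact hR.pos.1
      have h4 : KK R =ᶠ[𝓝 t] fun s => (-uu R s) / (1 - s ^ 2) := by
        filter_upwards [hc.eventually_lt continuousAt_const h5] with s hs
        unfold KK
        rw [(d_mid hR hs).2, zero_div, zero_sub]
      refine ContinuousAt.congr ?_ h4.symm
      exact (uu_cont hR).continuousAt.neg.div (Continuous.continuousAt (by fun_prop)) h3.ne'
    · unfold KK
      apply ContinuousAt.div
      · apply ContinuousAt.sub _ (uu_cont hR).continuousAt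
        exact ((cont_der hR).comp Real.continuous_arccos).continuousAt.div continuousAt_id h0
      · exact (Continuous.continuousAt (by fun_prop))
      · exact h3.ne'

private theorem uu_deriv (hR : Rad R δ) (t : ℝ) : HasDerivAt (uu R) (-t * KK R t) t := by
  by_cases h : Real.arccos t < δ ∨ Real.pi - δ < Real.arccos t
  · have h1 := loc_zero hR h
    have h2 : uu R =ᶠ[𝓝 t] fun _ => (0 : ℝ) := h1.mono fun s hs => hs.1
    rw [h1.self_of_nhds.2, mul_zero]
    exact (hasDerivAt_const t (0 : ℝ)).congr_of_eventuallyEq h2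
  · obtain ⟨h1, h2⟩ := inner_of hR h
    have h3 : 0 < 1 - t ^ 2 := by nlinarith
    have hs : 0 < √(1 - t ^ 2) := Real.sqrt_pos.2 h3
    have hd1 : HasDerivAt (fun s => R (Real.arccos s))
        (deriv R (Real.arccos t) * (-(1 / √(1 - t ^ 2)))) t := by
      have hr : HasDerivAt R (deriv R (Real.arccos t)) (Real.arccos t) :=
        ((hR.c1.differentiable (by norm_num)) (Real.arccos t)).hasDerivAt
      exact hr.comp t (Real.hasDerivAt_arccos h1.ne' h2.ne)
    have hd2 : HasDerivAt (fun s : ℝ => √(1 - s ^ 2)) ((-(2 * t)) / (2 * √(1 - t ^ 2))) t := by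
      have h4 : HasDerivAt (fun s : ℝ => 1 - s ^ 2) (-(2 * t)) t := by
        have := (hasDerivAt_pow 2 t).const_sub 1
        simpa using this
      exact h4.sqrt h3.ne'
    have hd3 := hd1.div hd2 hs.ne'
    have hsq : √(1 - t ^ 2) ^ 2 = 1 - t ^ 2 := Real.sq_sqrt h3.le
    refine hd3.congr_deriv ?_
    by_cases h0 : t = 0
    · have h5 : |Real.arccos t - Real.pi / 2| < δ := by
        rw [h0, Real.arccos_zero, sub_self, abs_zero]
        exact hR.pos.1
      rw [(d_mid hR h5).2, h0]
      simp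
    · unfold KK uu
      generalize √(1 - t ^ 2) = s at hs hsq ⊢
      rw [← hsq]
      field_simp
      ring


private theorem KK_zero (hR : Rad R δ) {t : ℝ}
    (h : Real.arccos t < δ ∨ Real.pi - δ < Real.arccos t) : uu R t = 0 ∧ KK R t = 0 :=
  (loc_zero hR h).self_of_nhds

private theorem ends (hR : Rad R δ) {t : ℝ} (h : ¬ (-1 < t ∧ t < 1)) : uu R t = 0 ∧ KK R t = 0 := by
  apply KK_zero hR
  by_contra h1
  exact h (inner_of hR h1)

private theorem uu_nonneg (hR : Rad R δ) (t : ℝ) : 0 ≤ uu R t :=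
  div_nonneg (hR.nn _) (Real.sqrt_nonneg _)

/-- the second radius of curvature -/
private theorem lam_nonneg (hR : Rad R δ) (t : ℝ) : 0 ≤ (1 - t ^ 2) * KK R t + uu R t := by
  by_cases h : -1 < t ∧ t < 1
  · have h3 : 0 < 1 - t ^ 2 := by nlinarith
    have h4 : (1 - t ^ 2) * KK R t + uu R t = deriv R (Real.arccos t) / t := by
      unfold KK
      rw [mul_div_cancel₀ _ h3.ne']
      ring
    rw [h4]
    rcases le_total 0 t with h0 | h0
    · exact div_nonneg (hR.up _ (Real.arccos_le_pi_div_two.2 h0)) h0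
    · exact div_nonneg_of_nonpos (hR.dn _ (by
        rw [Real.arccos_eq_pi_div_two_sub_arcsin]
        have := Real.arcsin_nonpos.2 h0
        linarith)) h0
  · rw [(ends hR h).1, (ends hR h).2]
    norm_num

private theorem at_zero (hR : Rad R δ) : uu R 0 = 1 := by
  unfold uu
  rw [Real.arccos_zero, (d_mid hR (by rw [sub_self, abs_zero]; exact hR.pos.1)).1]
  norm_num

/-- the comparison of the first radii of curvature -/
private theorem cmp (hR : Rad R δ) (p : ℝ[X]) (η : ℝ) (hη : 0 ≤ η)
    (h : ∀ t ∈ Icc (-1 : ℝ) 1, |p.derivative.derivative.eval t - KK R t| ≤ η)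
    (h0 : p.eval 0 = 1 + 2 * η) : ∀ t ∈ Icc (-1 : ℝ) 1,
      |p.eval t - t * p.derivative.eval t - uu R t - 2 * η| ≤ η := by
  intro t ht
  have hd : ∀ x ∈ Icc (-1 : ℝ) 1, HasDerivWithinAt
      (fun x => p.eval x - x * p.derivative.eval x - uu R x - 2 * η)
      (-x * (p.derivative.derivative.eval x - KK R x)) (Icc (-1) 1) x := by
    intro x _
    have h1 := (((p.hasDerivAt x).sub ((hasDerivAt_id x).mul (p.derivative.hasDerivAt x))).sub
      (uu_deriv hR x)).sub_const (2 * η)
    refine (h1.congr_deriv ?_).hasDerivWithinAt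
    simp only [id]
    ring
  have hb : ∀ x ∈ Icc (-1 : ℝ) 1, ‖-x * (p.derivative.derivative.eval x - KK R x)‖ ≤ η := by
    intro x hx
    rw [norm_mul, norm_neg, Real.norm_eq_abs, Real.norm_eq_abs]
    have h1 : |x| ≤ 1 := abs_le.2 ⟨hx.1, hx.2⟩
    calc |x| * |p.derivative.derivative.eval x - KK R x| ≤ 1 * η :=
          mul_le_mul h1 (h x hx) (abs_nonneg _) zero_le_one
      _ = η := one_mul _
  have h2 := (convex_Icc (-1 : ℝ) 1).norm_image_sub_le_of_norm_hasDerivWithin_le hd hb
    (show (0 : ℝ) ∈ Icc (-1 : ℝ) 1 by constructor <;> norm_num) ht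
  rw [at_zero hR, h0] at h2
  have h3 : ‖t - 0‖ ≤ 1 := by
    rw [sub_zero, Real.norm_eq_abs]
    exact abs_le.2 ⟨ht.1, ht.2⟩
  rw [Real.norm_eq_abs] at h2
  have h4 : p.eval t - t * p.derivative.eval t - uu R t - 2 * η -
      (1 + 2 * η - 0 * p.derivative.eval 0 - 1 - 2 * η) =
      p.eval t - t * p.derivative.eval t - uu R t - 2 * η := by ring
  rw [h4] at h2
  calc |p.eval t - t * p.derivative.eval t - uu R t - 2 * η| ≤ η * ‖t - 0‖ := h2
    _ ≤ η * 1 := mul_le_mul_of_nonneg_left h3 hη
    _ = η := mul_one _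

private theorem exists_poly (hR : Rad R δ) (η : ℝ) (hη : 0 < η) : ∃ p : ℝ[X], LP p ∧
    (∀ t ∈ Icc (-1 : ℝ) 1, |p.eval t - t * p.derivative.eval t - uu R t| ≤ 3 * η) ∧
    ∀ t ∈ Icc (-1 : ℝ) 1, |p.derivative.derivative.eval t - KK R t| ≤ η := by
  obtain ⟨q, hq⟩ := exists_polynomial_near_of_continuousOn (-1) 1 (KK R) (KK_cont hR).continuousOn η hη
  obtain ⟨P1, hP1⟩ := exists_antideriv q
  obtain ⟨P2, hP2⟩ := exists_antideriv P1
  set p : ℝ[X] := P2 + Polynomial.C (1 + 2 * η - P2.eval 0) with hp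
  have hp0 : p.eval 0 = 1 + 2 * η := by
    rw [hp, eval_add, eval_C]
    ring
  have hp2 : p.derivative.derivative = q := by
    rw [hp, derivative_add, derivative_C, add_zero, hP2, hP1]
  have h1 : ∀ t ∈ Icc (-1 : ℝ) 1, |p.derivative.derivative.eval t - KK R t| ≤ η := by
    intro t ht
    rw [hp2]
    exact (hq t ht).le
  have h2 := cmp hR p η hη.le h1 hp0
  refine ⟨p, ?_, ?_, h1⟩
  · intro t ht
    have h3 := abs_le.1 (h2 t ht)
    have h4 := abs_le.1 (h1 t ht)
    have h5 := uu_nonneg hR t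
    have h6 := lam_nonneg hR t
    have h7 : 0 ≤ 1 - t ^ 2 := by nlinarith [ht.1, ht.2]
    have h8 : 1 - t ^ 2 ≤ 1 := by nlinarith [sq_nonneg t]
    refine ⟨by linarith [h3.1], ?_⟩
    have h9 : (1 - t ^ 2) * (KK R t - η) ≤ (1 - t ^ 2) * p.derivative.derivative.eval t :=
      mul_le_mul_of_nonneg_left (by linarith [h4.1]) h7
    have h10 : (1 - t ^ 2) * η ≤ η := by nlinarith
    nlinarith [h3.1]
  · intro t ht
    have h3 := abs_le.1 (h2 t ht)
    rw [abs_le]
    constructor <;> linarith [h3.1, h3.2]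

end

theorem hZF : StZF := by
  intro m f hm hf H R δ hR
  have hcos : ∀ θ : ℝ, Real.cos θ ∈ Icc (-1 : ℝ) 1 := fun θ => ⟨Real.neg_one_le_cos θ, Real.cos_le_one θ⟩
  have hfc : Continuous (fun θ : ℝ => f (Real.cos θ)) := hf.comp_continuous Real.continuous_cos hcos
  obtain ⟨M, hM⟩ := isCompact_Icc.exists_bound_of_continuousOn hf
  have hM0 : 0 ≤ M := (norm_nonneg _).trans (hM 0 ⟨by norm_num, by norm_num⟩)
  -- the target
  set G : ℝ → ℝ := fun θ => f (Real.cos θ) *
    ((m : ℝ) * uu R (Real.cos θ) + ((1 - Real.cos θ ^ 2) * KK R (Real.cos θ) + uu R (Real.cos θ))) *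
      Real.sin θ ^ m with hG
  have hGc : Continuous G := by
    have h1 := (uu_cont hR).comp Real.continuous_cos
    have h2 := (KK_cont hR).comp Real.continuous_cos
    simp only [hG]
    exact (hfc.mul ((continuous_const.mul h1).add
      (((continuous_const.sub (Real.continuous_cos.pow 2)).mul h2).add h1))).mul
      (Real.continuous_sin.pow m)
  have key : ∀ η : ℝ, 0 < η → -(M * (4 * m + 4) * Real.pi * η) ≤ ∫ θ in (0 : ℝ)..Real.pi, G θ := by
    intro η hη
    obtain ⟨p, hp, hp1, hp2⟩ := exists_poly hR η hη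
    have h1 := H p hp
    unfold Zin at h1
    set F : ℝ → ℝ := fun θ => f (Real.cos θ) *
      (((m : ℝ) + 1) * (p.eval (Real.cos θ) - Real.cos θ * p.derivative.eval (Real.cos θ)) +
      Real.sin θ ^ 2 * p.derivative.derivative.eval (Real.cos θ)) * Real.sin θ ^ m with hF
    have hFc : Continuous F := by
      have e1 : Continuous (fun θ => p.eval (Real.cos θ)) := p.continuous.comp Real.continuous_cos
      have e2 : Continuous (fun θ => p.derivative.eval (Real.cos θ)) :=
        p.derivative.continuous.comp Real.continuous_cos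
      have e3 : Continuous (fun θ => p.derivative.derivative.eval (Real.cos θ)) :=
        p.derivative.derivative.continuous.comp Real.continuous_cos
      simp only [hF]
      exact (hfc.mul ((continuous_const.mul (e1.sub (Real.continuous_cos.mul e2))).add
        ((Real.continuous_sin.pow 2).mul e3))).mul (Real.continuous_sin.pow m)
    have h2 : ∀ θ ∈ Set.uIoc (0 : ℝ) Real.pi, ‖F θ - G θ‖ ≤ M * (4 * m + 4) * η := by
      intro θ hθ
      rw [Set.uIoc_of_le Real.pi_pos.le] at hθ
      have e1 := hM (Real.cos θ) (hcos θ)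
      have e2 := hp1 (Real.cos θ) (hcos θ)
      have e3 := hp2 (Real.cos θ) (hcos θ)
      have e4 : F θ - G θ = f (Real.cos θ) * (((m : ℝ) + 1) *
          (p.eval (Real.cos θ) - Real.cos θ * p.derivative.eval (Real.cos θ) - uu R (Real.cos θ)) +
          (1 - Real.cos θ ^ 2) * (p.derivative.derivative.eval (Real.cos θ) - KK R (Real.cos θ))) *
          Real.sin θ ^ m := by
        simp only [hF, hG]
        rw [Real.sin_sq]
        ring
      have hm0 : (0 : ℝ) ≤ m := Nat.cast_nonneg m
      have h7 : 0 ≤ 1 - Real.cos θ ^ 2 := by nlinarith [(hcos θ).1, (hcos θ).2]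
      have h8 : 1 - Real.cos θ ^ 2 ≤ 1 := by nlinarith [sq_nonneg (Real.cos θ)]
      have e5 : |((m : ℝ) + 1) *
          (p.eval (Real.cos θ) - Real.cos θ * p.derivative.eval (Real.cos θ) - uu R (Real.cos θ)) +
          (1 - Real.cos θ ^ 2) * (p.derivative.derivative.eval (Real.cos θ) - KK R (Real.cos θ))| ≤
          (4 * m + 4) * η := by
        refine (abs_add_le _ _).trans ?_
        rw [abs_mul, abs_mul, abs_of_nonneg (by linarith : (0 : ℝ) ≤ m + 1), abs_of_nonneg h7]
        have e6 : ((m : ℝ) + 1) * |p.eval (Real.cos θ) - Real.cos θ * p.derivative.eval (Real.cos θ) -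
            uu R (Real.cos θ)| ≤ (m + 1) * (3 * η) := mul_le_mul_of_nonneg_left e2 (by linarith)
        have e7 : (1 - Real.cos θ ^ 2) *
            |p.derivative.derivative.eval (Real.cos θ) - KK R (Real.cos θ)| ≤ 1 * η :=
          mul_le_mul h8 e3 (abs_nonneg _) zero_le_one
        nlinarith [mul_nonneg hm0 hη.le]
      have e8 : |Real.sin θ ^ m| ≤ 1 := by
        rw [abs_pow]
        exact pow_le_one₀ (abs_nonneg _) (Real.abs_sin_le_one θ)
      rw [e4, norm_mul, norm_mul]
      rw [Real.norm_eq_abs (Real.sin θ ^ m)]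
      calc _ ≤ M * ((4 * m + 4) * η) * 1 :=
            mul_le_mul (mul_le_mul e1 e5 (abs_nonneg _) hM0) e8 (abs_nonneg _)
              (mul_nonneg hM0 (by positivity))
        _ = M * (4 * m + 4) * η := by ring
    have h3 := intervalIntegral.norm_integral_le_of_norm_le_const h2
    rw [intervalIntegral.integral_sub (hFc.intervalIntegrable _ _) (hGc.intervalIntegrable _ _),
      sub_zero, abs_of_pos Real.pi_pos, Real.norm_eq_abs] at h3
    have h4 := abs_le.1 h3
    nlinarith [h4.2]
  have hG0 : 0 ≤ ∫ θ in (0 : ℝ)..Real.pi, G θ := by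
    set B : ℝ := M * (4 * m + 4) * Real.pi with hB
    have hB0 : 0 ≤ B := by
      have : (0 : ℝ) ≤ m := Nat.cast_nonneg m
      have := Real.pi_pos
      positivity
    by_contra hneg
    push Not at hneg
    set I := ∫ θ in (0 : ℝ)..Real.pi, G θ with hI
    have h1 := key (-I / (B + 1) / 2) (by
      apply div_pos (div_pos (by linarith) (by linarith)) two_pos)
    have h2 : B * (-I / (B + 1) / 2) < -I := by
      rw [mul_div_assoc', mul_div_assoc', div_div, div_lt_iff₀ (by positivity)]
      nlinarith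
    linarith
  unfold Rin
  have hEq : ∫ θ in (0 : ℝ)..Real.pi, f (Real.cos θ) *
      (m * R θ * Real.sin θ ^ (m - 1) + deriv R θ * Real.sin θ ^ m / Real.cos θ) =
      ∫ θ in (0 : ℝ)..Real.pi, G θ := by
    apply intervalIntegral.integral_congr
    intro θ hθ
    rw [Set.uIcc_of_le Real.pi_pos.le] at hθ
    simp only [hG]
    have ha : Real.arccos (Real.cos θ) = θ := Real.arccos_cos hθ.1 hθ.2
    have hd := hR.pos
    by_cases h0 : Real.sin θ = 0
    · have h1 : θ < δ ∨ Real.pi - δ < θ := by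
        by_contra hcon
        rw [not_or, not_lt, not_lt] at hcon
        have : 0 < Real.sin θ := Real.sin_pos_of_pos_of_lt_pi (by linarith [hcon.1, hd.1])
          (by linarith [hcon.2, hd.1])
        linarith
      have h2 := KK_zero hR (t := Real.cos θ) (by rw [ha]; exact h1)
      have h3 : R θ = 0 ∧ deriv R θ = 0 := h1.elim (d_lo hR) (d_hi hR)
      rw [h2.1, h2.2, h3.1, h3.2]
      ring
    · have hs : 0 < Real.sin θ := lt_of_le_of_ne (Real.sin_nonneg_of_nonneg_of_le_pi hθ.1 hθ.2)
        (fun h => h0 h.symm)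
      have h1 : √(1 - Real.cos θ ^ 2) = Real.sin θ := by
        rw [← Real.sin_sq, Real.sqrt_sq hs.le]
      have h2 : uu R (Real.cos θ) = R θ / Real.sin θ := by
        unfold uu
        rw [ha, h1]
      have h3 : (1 - Real.cos θ ^ 2) * KK R (Real.cos θ) + uu R (Real.cos θ) =
          deriv R θ / Real.cos θ := by
        unfold KK
        rw [ha, ← Real.sin_sq, mul_div_cancel₀ _ (pow_ne_zero 2 h0)]
        ring
      rw [h3, h2]
      obtain ⟨k, rfl⟩ : ∃ k, m = k + 1 := ⟨m - 1, by omega⟩
      rw [Nat.add_sub_cancel, pow_succ]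
      field_simp
  rw [hEq]
  exact hG0

end Pool.Agent.Helper39.MU
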